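import Pool.Agent.H.MP_c5a4a7_gt.B

namespace Pool.Agent.Results.MP_c5a4a7_gt.No

open Set Filter Topology MeasureTheory

/-- The link of `p` in a polyhedral surface `S`: unit directions at `p` pointing into `S`. -/
def link (S : Set (EuclideanSpace ℝ (Fin 3))) (p : EuclideanSpace ℝ (Fin 3)) :
    Set (EuclideanSpace ℝ (Fin 3)) :=
  {d | ‖d‖ = 1 ∧ ∀ᶠ t in 𝓝[>] (0 : ℝ), p + t • d ∈ S}

/-- A simple closed quasigeodesic on `S` (period one): at every point the two one-sided unit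
tangent directions cut the link into arcs (the two surface angles) of length at most `π`. -/
def IsSCQ (S : Set (EuclideanSpace ℝ (Fin 3))) (γ : ℝ → EuclideanSpace ℝ (Fin 3)) : Prop :=
  Continuous γ ∧ Function.Periodic γ 1 ∧ InjOn γ (Ico 0 1) ∧ (∀ t, γ t ∈ S) ∧
  ∀ t, ∃ (d₁ d₂ : EuclideanSpace ℝ (Fin 3)) (a b : ℝ), 0 < a ∧ 0 < b ∧
    d₁ ∈ link S (γ t) ∧ d₂ ∈ link S (γ t) ∧
    HasDerivWithinAt γ (a • d₁) (Ici t) t ∧ HasDerivWithinAt γ (-(b • d₂)) (Iic t) t ∧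
    ∀ C ⊆ link S (γ t) \ {d₁, d₂}, IsPreconnected C → μH[1] C ≤ ENNReal.ofReal Real.pi

theorem result : ∃ v : Fin 4 → EuclideanSpace ℝ (Fin 3), AffineIndependent ℝ v ∧
    {Γ : Set (EuclideanSpace ℝ (Fin 3)) | ∃ γ, IsSCQ (frontier (convexHull ℝ (range v))) γ ∧
      range γ = Γ ∧ ∃ t i, γ t = v i}.Infinite := by
  refine ⟨H.MP_c5a4a7_gt.vv, H.MP_c5a4a7_gt.vv_ind, ?_⟩
  rw [H.MP_c5a4a7_gt.hull, H.MP_c5a4a7_gt.frontier_T]
  exact H.MP_c5a4a7_gt.many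

end Pool.Agent.Results.MP_c5a4a7_gt.No
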